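import Pool.Agent.Helper25.GF.Goals

/-!
# Project GF (MP_766b49_co), packet EX2
-/

set_option autoImplicit false

namespace Pool.Agent.Helper63.GF

open Finset Pool.Agent.Helper25.GF

open Classical in
/-- union bound -/
theorem Pr_le_sum {d n : ℕ} {E : Om d n → Prop} (S : Finset ℕ) (F : ℕ → Om d n → Prop)
    (h : ∀ ω, E ω → ∃ m ∈ S, F m ω) : Pr E ≤ ∑ m ∈ S, Pr (F m) := by
  unfold Pr
  rw [← Finset.sum_div]
  apply div_le_div_of_nonneg_right _ (Nat.cast_nonneg _)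
  have h1 : (univ.filter E) ⊆ S.biUnion (fun m => univ.filter (F m)) := by
    intro ω hω
    rw [mem_filter] at hω
    obtain ⟨m, hm, hF⟩ := h ω hω.2
    rw [mem_biUnion]
    exact ⟨m, hm, by rw [mem_filter]; exact ⟨mem_univ _, hF⟩⟩
  have h2 := (Finset.card_le_card h1).trans Finset.card_biUnion_le
  exact_mod_cast h2

theorem log_bound (g t : ℕ) (ht : 1 ≤ t) :
    (3 + Real.log t) ^ g ≤ (2 * g + 5 : ℝ) ^ g * (t : ℝ) ^ (1 / 2 : ℝ) := by
  have ht1 : (1 : ℝ) ≤ t := by exact_mod_cast ht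
  have ht0 : (0 : ℝ) ≤ t := by linarith
  have hg : (0 : ℝ) < 2 * (g + 1) := by positivity
  set e : ℝ := 1 / (2 * (g + 1)) with he
  have he0 : 0 < e := by positivity
  have h1 : Real.log t ≤ (t : ℝ) ^ e / e := Real.log_le_rpow_div ht0 he0
  have h2 : (t : ℝ) ^ e / e = 2 * (g + 1) * (t : ℝ) ^ e := by
    rw [he]
    field_simp
  have h3 : (1 : ℝ) ≤ (t : ℝ) ^ e := Real.one_le_rpow ht1 he0.le
  have h4 : 3 + Real.log t ≤ (2 * g + 5) * (t : ℝ) ^ e := by
    rw [h2] at h1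
    nlinarith
  have h5 : 0 ≤ 3 + Real.log t := by
    have := Real.log_nonneg ht1
    linarith
  calc (3 + Real.log t) ^ g ≤ ((2 * g + 5) * (t : ℝ) ^ e) ^ g := pow_le_pow_left₀ h5 h4 g
    _ = (2 * g + 5 : ℝ) ^ g * ((t : ℝ) ^ e) ^ g := mul_pow _ _ _
    _ ≤ (2 * g + 5 : ℝ) ^ g * (t : ℝ) ^ (1 / 2 : ℝ) := by
        apply mul_le_mul_of_nonneg_left _ (by positivity)
        rw [← Real.rpow_natCast, ← Real.rpow_mul ht0]
        apply Real.rpow_le_rpow_of_exponent_le ht1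
        rw [he]
        rw [div_mul_eq_mul_div, one_mul, div_le_div_iff₀ hg (by norm_num)]
        nlinarith

/-- EX2 -/
theorem ex2 (hCYP : CYP) : EX2 := by
  intro d g
  set C : ℝ := g * ((d + 1 : ℝ) ^ (g + 2) * (2 * g + 5 : ℝ) ^ g) with hC
  have hC0 : 0 ≤ C := by positivity
  have hsum : Summable (fun t : ℕ => 1 / (t : ℝ) ^ (3 / 2 : ℝ)) :=
    Real.summable_one_div_nat_rpow.2 (by norm_num)
  set B : ℝ := ∑' t : ℕ, 1 / (t : ℝ) ^ (3 / 2 : ℝ) with hB
  have hB0 : 0 ≤ B := tsum_nonneg fun t => by positivity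
  refine ⟨4 * (C * B) + 1, by positivity, ?_⟩
  intro n
  have hterm : ∀ t ∈ Icc 1 n, Pr (fun ω : Om d n => Bad ω g t) / t ≤
      C * (1 / (t : ℝ) ^ (3 / 2 : ℝ)) := by
    intro t ht
    rw [mem_Icc] at ht
    have ht1 : (1 : ℝ) ≤ t := by exact_mod_cast ht.1
    have ht0 : (0 : ℝ) < t := by linarith
    have h3 : 1 ≤ 3 + Real.log t := by
      have := Real.log_nonneg ht1
      linarith
    have h1 : Pr (fun ω : Om d n => Bad ω g t) ≤
        ∑ m ∈ (range g).filter (fun m => 1 ≤ m),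
          Pr (fun ω : Om d n => ∃ a : Fin (m + 1) → ℕ, Cy ω t m a) := by
      apply Pr_le_sum _ (fun m (ω : Om d n) => ∃ a : Fin (m + 1) → ℕ, Cy ω t m a)
      rintro ω ⟨m, hm1, hm2, ha⟩
      exact ⟨m, by rw [mem_filter, mem_range]; omega, ha⟩
    have h2 : ∀ m ∈ (range g).filter (fun m => 1 ≤ m),
        Pr (fun ω : Om d n => ∃ a : Fin (m + 1) → ℕ, Cy ω t m a) ≤
          (d + 1 : ℝ) ^ (g + 2) * (3 + Real.log t) ^ g / t := by
      intro m hm
      rw [mem_filter, mem_range] at hm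
      refine (hCYP d n m t hm.2 ht.1 ht.2).trans ?_
      apply div_le_div_of_nonneg_right _ ht0.le
      apply mul_le_mul
      · calc (d : ℝ) ^ (m + 2) ≤ (d + 1 : ℝ) ^ (m + 2) :=
              pow_le_pow_left₀ (Nat.cast_nonneg _) (by linarith) _
          _ ≤ (d + 1 : ℝ) ^ (g + 2) :=
              pow_le_pow_right₀ (by have := Nat.cast_nonneg (α := ℝ) d; linarith) (by omega)
      · exact pow_le_pow_right₀ h3 (by omega)
      · positivity
      · positivity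
    have h4 : Pr (fun ω : Om d n => Bad ω g t) ≤
        g * ((d + 1 : ℝ) ^ (g + 2) * (3 + Real.log t) ^ g / t) := by
      refine h1.trans ((Finset.sum_le_sum h2).trans ?_)
      rw [Finset.sum_const, nsmul_eq_mul]
      apply mul_le_mul_of_nonneg_right
      · have := Finset.card_filter_le (range g) (fun m => 1 ≤ m)
        rw [card_range] at this
        exact_mod_cast this
      · positivity
    have h5 : g * ((d + 1 : ℝ) ^ (g + 2) * (3 + Real.log t) ^ g / t) ≤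
        C * ((t : ℝ) ^ (1 / 2 : ℝ) / t) := by
      have h6 := log_bound g t ht.1
      have h7 : (d + 1 : ℝ) ^ (g + 2) * (3 + Real.log t) ^ g ≤
          (d + 1 : ℝ) ^ (g + 2) * ((2 * g + 5 : ℝ) ^ g * (t : ℝ) ^ (1 / 2 : ℝ)) :=
        mul_le_mul_of_nonneg_left h6 (by positivity)
      calc (g : ℝ) * ((d + 1 : ℝ) ^ (g + 2) * (3 + Real.log t) ^ g / t)
          ≤ g * ((d + 1 : ℝ) ^ (g + 2) * ((2 * g + 5 : ℝ) ^ g * (t : ℝ) ^ (1 / 2 : ℝ)) / t) :=
            mul_le_mul_of_nonneg_left (div_le_div_of_nonneg_right h7 ht0.le)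
              (Nat.cast_nonneg _)
        _ = C * ((t : ℝ) ^ (1 / 2 : ℝ) / t) := by
            rw [hC]
            ring
    calc Pr (fun ω : Om d n => Bad ω g t) / t ≤ C * ((t : ℝ) ^ (1 / 2 : ℝ) / t) / t :=
          div_le_div_of_nonneg_right (h4.trans h5) ht0.le
      _ = C * (1 / (t : ℝ) ^ (3 / 2 : ℝ)) := by
          have h8 : (t : ℝ) ^ (3 / 2 : ℝ) * (t : ℝ) ^ (1 / 2 : ℝ) = t * t := by
            rw [← Real.rpow_add ht0]
            norm_num
            ring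
          have h9 : (0 : ℝ) < (t : ℝ) ^ (3 / 2 : ℝ) := Real.rpow_pos_of_pos ht0 _
          have h10 : (t : ℝ) ^ (1 / 2 : ℝ) / t / t = 1 / (t : ℝ) ^ (3 / 2 : ℝ) := by
            rw [div_div, div_eq_div_iff (by positivity) h9.ne', ← h8]
            ring
          rw [mul_div_assoc, h10]
  calc ∑ t ∈ Icc 1 n, Pr (fun ω : Om d n => Bad ω g t) / t
      ≤ ∑ t ∈ Icc 1 n, C * (1 / (t : ℝ) ^ (3 / 2 : ℝ)) := Finset.sum_le_sum hterm
    _ = C * ∑ t ∈ Icc 1 n, 1 / (t : ℝ) ^ (3 / 2 : ℝ) := by rw [Finset.mul_sum]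
    _ ≤ C * B := by
        apply mul_le_mul_of_nonneg_left _ hC0
        exact hsum.sum_le_tsum _ (fun t _ => by positivity)
    _ ≤ (4 * (C * B) + 1) / 4 := by linarith

end Pool.Agent.Helper63.GF
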